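import Pool.Agent.V7H31.OD.Fam

/-!
# The density of ordinary reduction exists, is rational, and is decided by Frobenius modulo `3`

Let `X_i`, `i` in a finite set, be projective hyperkähler varieties over a number field `K`: of any
dimensions and deformation types, for example K3 surfaces; abelian surfaces are included in the same
way (all cohomology of an abelian surface is acted upon by `so(H²)`), and elliptic curves `E` through
the surfaces `E × E`. No extension of `K` is made, nothing is assumed about endomorphisms, the
Mumford-Tate or the Tate conjecture, and the varieties may be related to each other in any way.

**Theorem.** The set `P` of the places `v` of `K` where all `X_i` have good reduction which is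
ordinary in all degrees has a natural density `δ` (the limit of the proportions exists), and

* `δ` is a positive rational number;
* for every odd prime number `ℓ` it is decided by the action of Frobenius modulo `ℓ` if `v` is
  in `P`, at density one of the places: there is a set `C`, stable under conjugation and containing
  `1`, in the image `Γ` of Galois in the product of the `GL(H²(X_i, F_ℓ))`, such that, outside of a
  set of places of density zero, `v` is in `P` if and only if `Frob_v` modulo `ℓ` is in `C`;
  `δ = |C| / |Γ|`;
* so the denominator of `δ` divides the product of the orders of the groups `GL_{b_2(X_i)}(F_ℓ)`, for
  every odd `ℓ`, and `δ ≥ 1 / |Γ|`. For `ℓ = 3` this is a positive lower bound for `δ` which depends only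
  on the Betti numbers: the positive density of the conjecture is uniform in all varieties and in
  all number fields, and for given Betti numbers `δ` takes only finitely many values;
* all prime divisors of the denominator of `δ` are at most `1 + max b_2(X_i)` (at most `23` for K3
  surfaces and their products, at most `7` for abelian surfaces);
* `δ = 1` if the Galois group acts trivially on the `H²(X_i, F_ℓ)` for one odd `ℓ`. So the finite
  extension after which ordinary reduction has density one can be taken to be `K(H²(X_i, F_3))`.

A product of the `X_i` is ordinary if and only if all `X_i` are, so this is also a theorem on products.

The known results give ordinary reduction at density one of the places after an unspecified finite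
extension (K3 surfaces, abelian surfaces), or positive lower density over `K` (starting files of
this problem); existence of the density over `K`, rationality, and the uniform bounds are new.

## Idea of the proof

A place of degree one is ordinary for `X` if and only if the trace of Frobenius on `H²(1)` is not one
of the integers `k` with `|k| ≤ b_2` (if the slopes of `H²` are positive then `p` divides the trace;
if they are `0, 1, ..., 1, 2` then the trace is a `p`-adic unit; degrees other than two are taken care of
by the starting theorem on the action of `so(H²)`). So up to density zero `P` is the set of the places
whose Frobenius does not satisfy any of finitely many polynomial equations in the image of Galois.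

Such an equation holds on a set of measure zero in each coset of a subgroup `U` on which it does not
hold identically, if the Zariski closure of the image of `U` is connected. We show that `U` can be the
kernel of the reduction modulo `ℓ` (`Pad.lean`, `Lin.lean`): let `F` be a polynomial in the matrix
entries which vanishes on an open subgroup `V`, let `u` be congruent to `1` modulo `ℓ`, and `u ^ m` in
`V`. The translation by `u` acts on the polynomials in the matrix entries with eigenvalues in the
closed ball of radius `1 / ℓ` around `1`, a group without torsion as `ℓ` is odd. So the translation by `u`
is a polynomial in its `m`-th power, and `F(u)` is a combination of the `F(u ^ (m k)) = 0`.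

The bound for the primes dividing the denominator follows from Dirichlet's theorem, with `ℓ` a
primitive root modulo `q`, as `δ` does not depend on `ℓ`.
-/

set_option autoImplicit false

namespace Pool.Agent.Results.MP_17d720_ag.DensityRationalH31

open NumberField Pool.Agent.V7H31.OD

/-- **Natural density of ordinary reduction.** `𝒳` is a finite family of projective hyperkähler
varieties over the number field `K` (with their cohomology for all `ℓ`), `b i` the second Betti
numbers, `image ℓ` the image of the Galois group in the product `GLs ℓ` of the `GL(H²(X_i, F_ℓ))`. -/
theorem result {K : Type} [Field K] [NumberField K] {ι : Type} [Fintype ι] (𝒳 : Family K ι) :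
    ∃ δ : ℚ, 0 < δ ∧
      (∀ (ℓ : ℕ) [Fact ℓ.Prime] (h : ℓ ≠ 2), HasDensity (𝒳.Ordinary ℓ) δ ∧
        (∃ C, 𝒳.Decides ℓ h C ∧ δ = C.ncard / Nat.card (𝒳.image ℓ h)) ∧
        δ.den ∣ Nat.card (𝒳.GLs ℓ) ∧ 1 / (Nat.card (𝒳.image ℓ h) : ℚ) ≤ δ ∧
        (𝒳.image ℓ h = ⊥ → δ = 1)) ∧
      ∀ B : ℕ, (∀ i, 𝒳.b i ≤ B) → ∀ q : ℕ, q.Prime → q ∣ δ.den → q ≤ B + 1 :=
  family_thm 𝒳

end Pool.Agent.Results.MP_17d720_ag.DensityRationalH31
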