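import Pool.Agent.V7H31.OD.Exact

/-!
# The exact density of the primes of ordinary reduction of hyperkähler varieties

Let `X_i`, `i` in a finite set, be projective hyperkähler varieties over a number field `K` (of any
dimensions; for example K3 surfaces; also abelian surfaces, and elliptic curves `E` by means of
`E × E`). Let `E_i` be the field of the endomorphisms of the transcendental part of `H²(X_i)`: it is `ℚ`
in general, or a totally real or a CM field. It acts on the holomorphic two-form of `X_i`, and in this
way it is a subfield of the algebraic closure of `K`.

**Theorem.** Let `F = K(E_1, …, E_m)`. The set of the places of `K` at which all `X_i` have good
ordinary reduction (in all degrees) has the natural density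

  `δ = 1 / [F : K]`.

More precisely: outside of a set of places of density zero the `X_i` have ordinary reduction at `v` if
and only if `v` splits completely in `F` (a Frobenius element at `v` fixes `F`); and one direction has no
exceptions: if `v` has degree one and `X_i` has good ordinary reduction at `v`, then the Frobenius
elements at `v` fix `E_i`.

Consequences.
* If the transcendental parts have no endomorphisms except the rational numbers then the density is
  one over `K` itself: no extension is needed.
* The smallest finite extension of `K` over which ordinary reduction has density one is `F`.
* A K3 surface with real multiplication by a quadratic field `E` which is not contained in `K` has the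
  density `1/2`; for an elliptic curve with complex multiplication not defined over `K` we get `1/2`,
  and for abelian surfaces the values `1`, `1/2`, `1/4` of Sawin. For several varieties the densities
  are not independent: only the compositum of the fields matters.

Known before: density one after some finite extension (Bogomolov-Zarhin for K3 surfaces, Ogus for
abelian surfaces), positive lower density over `K` (starting files), the values for one abelian
surface (Sawin), non-ordinary reduction at inert primes for real multiplication (Elsenhans-Jahnel).
The hand-in `DensityRationalH31` of this problem needs nothing about endomorphisms and no Tate
conjecture; it shows that the density exists and is rational, but does not compute it.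

## Idea of the proof

Let `U` be the kernel of the reduction modulo the odd prime `ℓ`: the Zariski closure of its image is
connected (`Pad.lean`). A place of degree one is ordinary if and only if the trace of Frobenius on
`H²(1)` is not one of finitely many integers, so the density is the proportion of the cosets `γ U` on
which the trace is not constantly equal to one of these integers. If `γ` moves an element `e` of `E`
then the trace on the transcendental part `T` is zero on `γ U`: for `φ` commuting with `E` we have
`tr (γ φ e) = tr (γ e φ) = tr (γ(e) γ φ) = tr (γ φ γ(e))`, and `e - γ(e)` is invertible. So the trace is
constant; comparing two places of different residue characteristics with Frobenius in `γ U` one sees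
that the constant is an integer. If `γ` fixes `E` and the trace were constant on `γ U` then, since the
elements of `U` span the endomorphisms of `T` commuting with `E`, among them `γ⁻¹`, the trace would be
constant on `U`, in contradiction to the theorem of Sen.
-/

set_option autoImplicit false

namespace Pool.Agent.Results.MP_17d720_ag.ExactDensityH31

open NumberField Module Pool.Agent.N184.HK Pool.Agent.V7H31.OD

/-- **The density of ordinary reduction is `1 / [K(E_1, …, E_m) : K]`.** `X i` are projective
hyperkähler varieties over `K` with stable lattices `L i` in `H²(1)`, and `M i` are the fields of
endomorphisms of the transcendental parts. -/
theorem result {K : Type} [Field K] [NumberField K] {ℓ : ℕ} [Fact ℓ.Prime] (hℓ : ℓ ≠ 2)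
    {ι : Type} [Fintype ι] (X : ι → Hyperkaehler K ℓ) (L : ∀ i, Lattice (X i).R ((X i).b 2))
    (M : ∀ i, Mult (X i)) :
    0 < finrank K (compositum M) ∧
    HasDensity (AllOrd X) (1 / finrank K (compositum M)) ∧
    HasDensity (fun v => ¬ (AllOrd X v ↔ SplitsIn (compositum M) v)) 0 ∧
    ∀ v i, (Ideal.absNorm v.asIdeal).Prime → Ord (X i) v → FrobFixes (M i).E v :=
  exact X (fun i => (X i).b 2) L M hℓ (fun _ => rfl)

end Pool.Agent.Results.MP_17d720_ag.ExactDensityH31
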