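import Pool.Agent.V7H32.DO.Degree

/-!
# Positive density of the ordinary places: reduction to hypersurfaces and curves over the field of
# rational numbers

`Q1` over a number field `K` says: for every smooth projective variety over `K` the places of good
ordinary reduction have positive lower density. The definitions are in `V7H32/UO/Defs.lean` and
`V7H32/DO/Defs.lean`. The known facts on Newton and Hodge polygons which are used are the fields of the
structures `Slopes.Known` and `KnownDegree`.

Theorem. The following are equivalent.

1. Q1 over the field of rational numbers.
2. Q1 over every number field which can be embedded into a CM field, for example over all totally real
   fields and all CM fields.
3. For every hypersurface `X` (possibly singular) of even dimension `d` over the field of rational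
   numbers the prime numbers which are ordinary for the intersection cohomology `IH^d(X)` have
   positive lower density.

More precisely let `F` be a class of sets of prime numbers which is closed under passing to larger sets
and under the removal of finitely many elements (positive lower density, positive upper density,
divergence of the sum of `1/p`, ...). If for every hypersurface as in 3 the set of the ordinary prime
numbers is in `F`, then for all finite families of projective varieties (possibly singular) over
different number fields and degrees and every CM field `L` the set of the prime numbers `p`, completely
split in `L`, such that all members of the family are ordinary at all places above `p` is in `F`. The
same for the middle cohomology of smooth projective varieties of even dimension over the field of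
rational numbers.

The same for one degree `n ≥ 1`: for `H^n` it is enough to consider the smooth projective varieties of
dimension `n` over the field of rational numbers; for `n = 1` this reduces the question of Serre for
abelian varieties over all totally real fields and all CM fields to curves over the field of rational
numbers.

Idea of the proof. A direct summand of an ordinary object is ordinary, and so are the factors of a
nonzero tensor product which is ordinary. So one variety over the field of rational numbers serves for
a finite family. The family may contain an abelian variety with complex multiplication which is
ordinary only at prime numbers which split completely in `L`. So one gets places of degree one of the
subfields of `L`, and the number of all places of norm at most `x` is at most the degree times the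
number of the prime numbers up to `x`. (For a number field which is not contained in a CM field one gets
positive density of the prime numbers all of whose places are ordinary, but these places might not
be of degree one.)
-/

set_option autoImplicit false

namespace Pool.Agent.Results.MP_17d720_ag.HypersurfaceReductionH32

open Pool.Agent.V7H32.UO Pool.Agent.V7H32.DO NumberField

/-- **The reduction of the density of ordinary places to hypersurfaces over the field of rational
numbers**, for all degrees together and for one degree. -/
theorem result (T : Slopes) (hT : T.Known) :
    ((OrdinaryDensity T NF.rat ↔
        ∀ K L : NF, IsCMField L.F → Nonempty (K.F →+* L.F) → OrdinaryDensity T K) ∧
      (OrdinaryDensity T NF.rat ↔ HypersurfacesIn T PositiveLowerDensity)) ∧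
    (∀ F : Set (Set ℕ), IsClass F →
      (MiddleIn T F ↔ CommonIn T F) ∧ (HypersurfacesIn T F ↔ CommonIn T F)) ∧
    IsClass PositiveLowerDensity ∧
    (KnownDegree T → ∀ n : ℕ, 1 ≤ n →
      (∀ F : Set (Set ℕ), IsClass F → (DegreeIn T n F ↔ CommonDegreeIn T n F)) ∧
      (DegreeIn T n PositiveLowerDensity ↔
        ∀ K L : NF, IsCMField L.F → Nonempty (K.F →+* L.F) → DegreeDensity T n K)) :=
  ⟨⟨(main_all hT).2.2, (main_all hT).2.1⟩, (main_all hT).1, isClass,
    fun hD n hn => main_degree hT hD n hn⟩

end Pool.Agent.Results.MP_17d720_ag.HypersurfaceReductionH32
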