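import Mathlib
import Pool.Agent.V7H31.IP.Main
import Pool.Agent.V7H31.IP.Loc

/-!
# Ordinary reduction at the primes which are inert in the coefficient field: surfaces of arbitrary
geometric genus and abelian varieties of arbitrary even dimension

Let `K` be a number field. A `System` is a motive `T` of weight two over `K` with coefficients in a number
field `F` which is of K3 type over `F`: for each embedding of `F` the Hodge numbers are `1, n - 2, 1`. The
degree of `F` is arbitrary. Examples:

* surfaces: `T` is the transcendental part of `H²` of a surface with `p_g = [F : ℚ]`, or one of the
  summands of the transcendental part of a surface with `p_g = ∑ [F_i : ℚ]`, for instance a Hilbert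
  modular surface, where `F_i` are the fields of the newforms;
* abelian varieties `A` of dimension `2 [F : ℚ]` with multiplication by a totally real field `F`, or by
  a CM field `F` of signature `(2, 2)` at all places: `T = Λ²_F H¹(A)`.

At a place `v` of good reduction of degree one above the prime number `p` the motive `T` is the sum of parts
with the indices `φ`, the embeddings of `F` into the algebraic closure of `K` (into `ℚ_p^al`, by the
choice of a place above `v`). `T` is ordinary at `φ` if the Newton polygon of this part is `0, 1, …, 1, 2`;
`T` (and the surface, and `A`) is ordinary if this is true for all `φ`.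

**Theorem.** Let `T i` be finitely many such motives, `ℓ` an odd prime number, and let `G°` be the connected
monodromy subgroup: the elements of the Galois group of `K` whose image in the product of the
`ℓ`-adic representations is in the identity component of the Zariski closure.

1. `G°` is an open normal subgroup; it contains the kernel of the action on the lattices modulo `ℓ`.
2. Outside of a set of places of density zero the following is true at all places `v` such that the
   Frobenius is in `G°` (so for density one of the places over a finite extension of `K`): for each `i` the
   set of the embeddings at which `T i` is ordinary is not empty. It is stable under the Frobenius and the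
   complex conjugation, and so it contains at least `m i` embeddings, if all stable sets have at least
   `m i` elements. So the part of slope zero of `H²` of the surface has dimension at least `∑ m i` (at
   least the number of the summands), and the `p`-rank of `A i` is at least `2 m i`.
3. In particular the reduction is ordinary outside of a set of density zero at all places `v` such that
   the Frobenius is in `G°` and permutes transitively the embeddings of the fields `F_i`, up to complex
   conjugation (`p` is inert in the maximal totally real subfields of the `F_i`). These places have a
   natural density, which is a positive rational number as soon as there is such an element in `G°`.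
   Then the set of places of good ordinary reduction has positive lower density.

For example this is the case if `K = ℚ`, the monodromy group is connected and `F` is a cyclic extension
of `ℚ`, or a field of degree `g` whose Galois group is the symmetric group: for all abelian varieties
over `ℚ` of dimension `2 g` with multiplication by `F`, and for surfaces with `p_g = g`.

Proof. The trace `a` of the Frobenius over `F` is an integer of `F` whose conjugates have absolute value
at most `n p`. If `T` is not ordinary at any `φ`, then `a` is in all prime ideals of `F` above `p`, so
`a = p b` with an integer `b` of `F` whose conjugates are bounded by `n`; so the trace of the Frobenius on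
the `ℚ_ℓ`-space `T(1)` is one of finitely many integers. The trace is not constant on open subgroups, by
Sen's theorem, and so it is not constant on the cosets in `G°` of open subgroups; hence this happens for
a set of places of density zero. If `T` is ordinary at `φ` and `σ` is the Frobenius, then `σ φ (a)` is
congruent to `φ (a) ^ p`, hence a unit at the place, and `T` is ordinary at `σ φ`. That `G°` contains the
congruence subgroup modulo `ℓ` was proved for `DensityRationalH31`.
-/

set_option autoImplicit false

namespace Pool.Agent.Results.MP_17d720_ag.InertPrimesH31

open NumberField IsDedekindDomain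
open Pool.Agent.W401.Cheb Pool.Agent.V7H31.OD Pool.Agent.V7H31.IP

/-- **Ordinary reduction of motives of K3 type with coefficients, of surfaces and abelian varieties.** -/
theorem result {K : Type} [Field K] [NumberField K] {ℓ : ℕ} [Fact ℓ.Prime] (hℓ : ℓ ≠ 2)
    {ι : Type} [Fintype ι] (T : ι → System K ℓ) (b : ι → ℕ) (L : ∀ i, Lattice (T i).R (b i)) :
    (∃ H : Subgroup (GK K), H.Normal ∧ IsOpen (H : Set (GK K)) ∧ (∀ γ, γ ∈ H ↔ Conn L γ) ∧
      ∀ γ, (∀ i, (L i).red γ = 1) → γ ∈ H) ∧
    (∀ m : ι → ℕ,
      HasDensity (fun v => (∃ σ ∈ Large T L m, IsFrob v σ) ∧ ¬ ∀ i, m i ≤ (T i).num v) 0 ∧
      ∃ δ : ℚ, HasDensity (fun v => ∃ σ ∈ Large T L m, IsFrob v σ) δ ∧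
        ((Large T L m).Nonempty → 0 < δ)) ∧
    HasDensity (fun v => (∃ σ ∈ Large T L (deg T), IsFrob v σ) ∧ ¬ ∀ i, (T i).Ord v) 0 ∧
    ((Large T L (deg T)).Nonempty →
      0 < Pool.Agent.W528.Ord.lowerDensity (fun v => ∀ i, (T i).Ord v)) ∧
    (∀ ρ v (h : ∀ i, v ∉ (T i).bad), ∑ i, (T i).num v ≤ (newton T ρ v h).count 0 ∧
      ((∀ i, (T i).Ord v) → newton T ρ v h = hodge T ρ)) ∧
    ∀ i (A : Abelian (T i)) v (h : v ∉ (T i).bad), 2 * (T i).num v ≤ A.prank v h ∧
      ((T i).Ord v → A.Ordinary v h) := by
  have h0 : ∀ m : ι → ℕ,
      HasDensity (fun v => (∃ σ ∈ Large T L m, IsFrob v σ) ∧ ¬ ∀ i, m i ≤ (T i).num v) 0 := by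
    intro m
    have h := Pool.Agent.W528.Ord.ratio_tendsto _ _ (main_zero T L hℓ m)
    rw [HasDensity, Rat.cast_zero]
    exact h
  refine ⟨conn_subgroup hℓ, fun m => ⟨h0 m, ?_⟩, ?_, main_pos T L hℓ, ?_, ?_⟩
  · obtain ⟨δ, h1, h2⟩ := main_rat T L hℓ m
    exact ⟨δ, Pool.Agent.W528.Ord.ratio_tendsto _ _ h1, h2⟩
  · have h := main_zero T L hℓ (deg T)
    rw [HasDensity, Rat.cast_zero]
    refine Pool.Agent.W528.Ord.ratio_tendsto _ _ ?_
    refine squeeze_zero (fun N => Pool.Agent.W528.Ord.dens_nonneg _ _)
      (fun N => Pool.Agent.W528.Ord.dens_mono ?_ N) h
    rintro v ⟨hv, hno⟩
    exact ⟨hv, fun hall => hno fun i => ord_of_num T i v (hall i)⟩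
  · intro ρ v h
    exact ⟨count_newton T ρ v h, newton_eq T ρ v h⟩
  · intro i A v h
    exact ⟨abelian_prank A v h, abelian_ord A v h⟩

end Pool.Agent.Results.MP_17d720_ag.InertPrimesH31
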